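import Pool.Agent.Helper98.DE.St3
import Pool.Agent.Helper12.MA.Lib
import Pool.Agent.Helper55.DE.M_PCI
import Pool.Agent.Helper29.DE.M_PLB
import Pool.Agent.Helper80.DE.M_EU3
import Pool.Agent.Helper7.DE.M_DG4
import Pool.Agent.Helper98.DE.M_TFB
import Pool.Agent.Helper86.DE.M_CRI
import Pool.Agent.Helper60.DE.M_SVB
import Pool.Agent.Helper70.DE.M_YB4
import Pool.Agent.Helper47.DE.M_CNT
import Pool.Agent.Helper21.DE.M_HIG
import Pool.Agent.Helper73.DE.M_SQB
import Pool.Agent.Helper71.DE.M_EXC
import Pool.Agent.Helper61.DE.M_HG2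
import Pool.Agent.Helper36.DE.M_SQ2
import Pool.Agent.Helper77.DE.M_TRI
import Pool.Agent.Helper70.DE.M_CUB

/-!
# MP_d63854_co: degrees and number of edges of the excluded minors of the class of apex graphs

Let `G` be a finite simple graph with `n` vertices and `m` edges which is not apex although deleting any edge gives an apex
graph; every excluded minor of the class of apex graphs is of this kind.  Then

* the sum over all vertices of `max (6 - deg v) 0` is at least `4`, so some vertex has degree at most 5;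
* `m ≤ 3 n` or `m ≤ (11 n - 19) / 3`, and `m ≤ 3 n - 9/2 + 2 √(2 n)`;
* if `G` has no triangle then the sum of `max (4 - deg v) 0` is at least `2`, so some vertex has degree at most 3, and
  `m ≤ 2 n - 7/2 + 2 √(2 n)`;
* if a vertex `v` of degree at most 3 is in a triangle `v x y` then `G - v - x y` is planar and `m ≤ 3 n - 5`.

Idea: for every edge `e` there is a vertex `z` (a server of `e`) not on `e` such that `G - z - e` is planar.  The planar bound gives
`m ≤ 3 n - 8 + deg z`.  The edges at a server `z` are served by other vertices, and each of them serves at most four edges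
at `z` (they lie in every Kuratowski subgraph of `G` without this vertex).
-/

open scoped BigOperators

set_option autoImplicit false

namespace Pool.Agent.Results.MP_d63854_co.DegreesAndEdges

open Pool.Agent.Helper51.AJ (IsMinor Planar Apex ExMinor)
open Pool.Agent.Helper98.DE

theorem result :
    (∀ (V : Type) [Finite V] (G : SimpleGraph V), ExMinor G → Critical G) ∧
    ∀ (V : Type) [Fintype V] (G : SimpleGraph V), Critical G →
      4 ≤ ∑ v, (6 - (G.neighborSet v).ncard) ∧
      (G.edgeSet.ncard ≤ 3 * Fintype.card V ∨ 3 * G.edgeSet.ncard + 19 ≤ 11 * Fintype.card V) ∧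
      (G.edgeSet.ncard : ℝ) ≤ 3 * (Fintype.card V : ℝ) - 9 / 2 + 2 * Real.sqrt (2 * (Fintype.card V : ℝ)) ∧
      ((∀ a b c, G.Adj a b → G.Adj b c → ¬ G.Adj a c) →
        2 ≤ ∑ v, (4 - (G.neighborSet v).ncard) ∧
        (G.edgeSet.ncard : ℝ) ≤
          2 * (Fintype.card V : ℝ) - 7 / 2 + 2 * Real.sqrt (2 * (Fintype.card V : ℝ))) ∧
      (∀ v x y, G.Adj v x → G.Adj v y → G.Adj x y → (G.neighborSet v).ncard ≤ 3 →
        Planar ((G.deleteEdges {s(x, y)}).induce {v}ᶜ) ∧
        G.edgeSet.ncard + 5 ≤ 3 * Fintype.card V) := by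
  have hPCI := Helper55.DE.hPCI
  have hPLB := Helper29.DE.hPLB hPCI
  have hEU3 := Helper80.DE.hEU3
  have hDG4 := Helper7.DE.hDG4
  have hTFB := Helper98.DE.hTFB hPCI hEU3
  have hCRI := Helper86.DE.hCRI
  have hSVB := Helper60.DE.hSVB hPCI hPLB hTFB
  have hYB4 := Helper70.DE.hYB4 hDG4
  have hCNT := Helper47.DE.hCNT hCRI hSVB
  have hHIG := Helper21.DE.hHIG hPCI hPLB hTFB
  have hSQB := Helper73.DE.hSQB hPCI hCRI hSVB hYB4 hHIG
  have hHG2 := Helper61.DE.hHG2 hPCI hPLB hTFB
  have hSQ2 := Helper36.DE.hSQ2 hPCI hCRI hSVB hYB4 hHG2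
  have hTRI := Helper77.DE.hTRI
  have hCUB := Helper70.DE.hCUB hPCI hCRI hSVB hTRI
  refine ⟨Helper71.DE.hEXC, fun V _ G hG => ?_⟩
  obtain ⟨h1, h2⟩ := hCNT V G hG
  obtain ⟨h3, h4⟩ := hSQ2 V G hG
  obtain ⟨-, h5⟩ := hSQB V G hG
  refine ⟨h1, h3, h4, fun h => ?_, fun v x y hx hy hxy hd => ?_⟩
  · have hT : TFr G Set.univ := fun a _ b _ c _ => h a b c
    exact ⟨h2 hT, h5 hT⟩
  · have ht : ∃ t, ∀ a, G.Adj v a → a = x ∨ a = y ∨ a = t := by
      by_contra hcon
      push Not at hcon
      obtain ⟨t, ht, htx, hty, -⟩ := hcon x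
      obtain ⟨u, hu, hux, huy, hut⟩ := hcon t
      have h4 : ({x, y, t, u} : Set V).ncard = 4 := by
        rw [Set.ncard_insert_of_notMem (by simp [hxy.ne, Ne.symm htx, Ne.symm hux]),
          Set.ncard_insert_of_notMem (by simp [Ne.symm hty, Ne.symm huy]),
          Set.ncard_pair (Ne.symm hut)]
      have h5 : ({x, y, t, u} : Set V) ⊆ G.neighborSet v := by
        intro a ha
        rcases ha with rfl | rfl | rfl | rfl
        · exact hx
        · exact hy
        · exact ht
        · exact hu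
      have h6 := Set.ncard_le_ncard h5 (Set.toFinite _)
      omega
    obtain ⟨t, ht⟩ := ht
    obtain ⟨h6, h7⟩ := hCUB V G v x y t hG hxy hx hy ht
    refine ⟨?_, h7⟩
    have h8 := h6.2.2
    have h9 := (Helper12.MA.nKCA V (Helper12.MA.dl G x y) {v}ᶜ).2.2.2.2.2.2.1
    rw [← h9] at h8
    have h10 : Helper12.MA.dl G x y = G.deleteEdges {s(x, y)} := by
      ext a b
      simp only [Helper12.MA.dl, SimpleGraph.deleteEdges_adj, Set.mem_singleton_iff, Sym2.eq_iff, not_or]
    rwa [h10] at h8

end Pool.Agent.Results.MP_d63854_co.DegreesAndEdges
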