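import Pool.Agent.Helper12.MA.All
import Pool.Agent.Helper12.MA.Join
import Pool.Agent.Helper12.MA.Fin

/-!
# MP_d63854_co: the 5-connected excluded minors of the class of apex graphs

All graphs are finite and simple (an excluded minor of the class of apex graphs has no loops and no parallel edges).
`IsMinor`, `Planar`, `Apex`, `ExMinor`, `jn` are defined in `Pool/Agent/Helper51/AJ/Defs.lean`.

Proof (paper proof in the docstrings of `Pool/Agent/Helper12/MA/StA.lean`, ..., `StD.lean`).  Let `G` be an excluded minor which
is 5-connected.  With at most six vertices it is `K₆`, and seven vertices are impossible.  Let it have at least eight.  For every edge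
`x y` there is a vertex `s` (a server) such that `G - s - x y` is planar; `G - s - t` is 3-connected for all `s, t`, so the faces are
determined.  Step 1 (part D): there is a double server, that is a vertex `z` with exactly five neighbours `v, p, q, r, r'` such that
`p q` is an edge and `v` serves it.  For this an edge `x y` is chosen which is not the only edge between the two sides of a
nontrivial separation by four vertices (by uncrossing such an edge exists up to one exceptional situation); if no double server
exists then different edges at the server `s` of `x y` have different servers, and all of these are cofacial with `x` and `y`.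
Step 2 (parts B, C): the neighbours `w` of `v` are classified by their servers; the crossing separations around `z` are
excluded with an extremal (leftmost) separation, and the remaining case forces `|G| = 8` and the join of two isolated vertices
with the prism.  The theory of faces of 3-connected planar graphs is proved in project NK (same problem).
-/

set_option autoImplicit false

namespace Pool.Agent.Results.MP_d63854_co.FiveConnectedExcludedMinors

open Pool.Agent.Helper51.AJ

/-- `G` is an excluded minor of the class of apex graphs, and `G - X` is connected for every set `X` of at most four vertices,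
if and only if `G` is `K₆` or the join of two isolated vertices with the triangular prism. -/
theorem result (V : Type) [Finite V] (G : SimpleGraph V) :
    (ExMinor G ∧ ∀ X : Set V, X.ncard ≤ 4 → (G.induce Xᶜ).Preconnected) ↔
      (Nonempty ((⊤ : SimpleGraph (Fin 6)) ≃g G) ∨
        Nonempty (jn (⊥ : SimpleGraph (Fin 2)) ((⊤ : SimpleGraph (Fin 3)) □ (⊤ : SimpleGraph (Fin 2))) ≃g G)) := by
  constructor
  · rintro ⟨hG, h5⟩
    rcases Pool.Agent.Helper12.MA.fin Pool.Agent.Helper12.MA.mWIS Pool.Agent.Helper12.MA.mEXS Pool.Agent.Helper12.MA.mNSV
      Pool.Agent.Helper12.MA.mHDD V G hG h5 with h | ⟨⟨e⟩⟩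
    · exact Or.inl h
    · obtain ⟨e'⟩ := Pool.Agent.Helper12.MA.iso8
      exact Or.inr ⟨e'.symm.trans e⟩
  · rintro (⟨⟨e⟩⟩ | ⟨⟨e⟩⟩)
    · refine ⟨((Pool.Agent.Helper12.MA.join V G).2 (Or.inl ⟨e⟩)).1, ?_⟩
      intro X _
      exact Pool.Agent.Helper12.MA.pre6 e X
    · refine ⟨((Pool.Agent.Helper12.MA.join V G).2 (Or.inr (Or.inr (Or.inr (Or.inl ⟨e⟩))))).1, ?_⟩
      intro X hX
      obtain ⟨e'⟩ := Pool.Agent.Helper12.MA.iso8
      exact Pool.Agent.Helper12.MA.pre_iso (e'.trans e) Pool.Agent.Helper12.MA.mCVA X hX

end Pool.Agent.Results.MP_d63854_co.FiveConnectedExcludedMinors
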