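import Pool.Agent.Helper51.AJ.Fin
import Pool.Agent.Helper51.AJ.M_FNA
import Pool.Agent.Helper51.AJ.M_FCO
import Pool.Agent.Helper44.AJ.M_TRN
import Pool.Agent.Helper11.AJ.M_JNM
import Pool.Agent.Helper41.AJ.M_CON
import Pool.Agent.Helper80.AJ.M_PTH
import Pool.Agent.Helper98.AJ.M_DEG
import Pool.Agent.Helper29.AJ.M_ACY
import Pool.Agent.Helper75.AJ.M_PLA
import Pool.Agent.Helper22.AJ.M_PLB
import Pool.Agent.Helper84.AJ.M_K4C
import Pool.Agent.Helper97.AJ.M_NFO
import Pool.Agent.Helper44.AJ.M_ATT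
import Pool.Agent.Helper16.AJ.M_SPL
import Pool.Agent.Helper29.AJ.M_THE
import Pool.Agent.Helper90.AJ.M_EDG
import Pool.Agent.Helper40.AJ.M_BBA
import Pool.Agent.Helper80.AJ.M_BBB
import Pool.Agent.Helper32.AJ.M_MTH
import Pool.Agent.Helper42.AJ.M_FEL
import Pool.Agent.Helper54.AJ.M_FCK
import Pool.Agent.Helper72.AJ.M_FEX
import Pool.Agent.Helper44.AJ.M_ASA
import Pool.Agent.Helper90.AJ.M_ASB
import Pool.Agent.Helper66.AJ.M_ASC
import Pool.Agent.Helper10.AJ.M_ASD
import Pool.Agent.Helper6.AJ.M_DSA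
import Pool.Agent.Helper38.AJ.M_DSB

/-!
# MP_d63854_co: the excluded minors of the class of apex graphs which are disconnected or have disconnected complement

All graphs are finite and simple (an excluded minor of the class of apex graphs has no loops and no parallel edges).
`IsMinor`, `Planar`, `Apex`, `ExMinor`, `jn` are defined in `Pool/Agent/Helper51/AJ/Defs.lean`.

Proof.  The disconnected ones: `Helper6` (DSA), `Helper38` (DSB).  Let the complement of `G` be disconnected, so `G` is a join of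
`A` and `B`, `|A| <= |B|`.  The main case is `A = 2 K_1`: if `B` has a `K_4` or a `K_{2,3}` minor and none of the minors
`K_4 + K_1`, `K_{2,3} + K_1`, `K_{1,1,3}`, the prism, `K_4` with a subdivided star, the theta graph with three paths of length
three, then `B` minus some vertex is a cycle (MTH).  The joins of `2 K_1` with these six graphs contain `K_6`, `K_{1,3,3}`,
`K_{1,3,3}`, themselves, and in the last two cases a proper minor which is not apex (FNA).
-/

set_option autoImplicit false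

namespace Pool.Agent.Results.MP_d63854_co.JoinExcludedMinors

open Pool.Agent.Helper51.AJ

/-- `G` is an excluded minor of the class of apex graphs, and `G` or its complement is disconnected, if and only if `G` is
one of seven graphs: `K₆`, `K₁,₃,₃`, the join of three isolated vertices with (a triangle and an isolated vertex), the
join of two isolated vertices with the triangular prism; `2K₅`, `K₅ + K₃,₃`, `2K₃,₃` -/
theorem result (V : Type) [Finite V] (G : SimpleGraph V) :
    (ExMinor G ∧ (¬ G.Preconnected ∨ ¬ Gᶜ.Preconnected)) ↔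
      (Nonempty ((⊤ : SimpleGraph (Fin 6)) ≃g G) ∨
        Nonempty (jn (⊤ : SimpleGraph (Fin 1)) (completeBipartiteGraph (Fin 3) (Fin 3)) ≃g G) ∨
        Nonempty (jn (⊥ : SimpleGraph (Fin 3)) ((⊤ : SimpleGraph (Fin 3)) ⊕g (⊤ : SimpleGraph (Fin 1))) ≃g G) ∨
        Nonempty (jn (⊥ : SimpleGraph (Fin 2)) ((⊤ : SimpleGraph (Fin 3)) □ (⊤ : SimpleGraph (Fin 2))) ≃g G) ∨
        Nonempty ((⊤ : SimpleGraph (Fin 5)) ⊕g (⊤ : SimpleGraph (Fin 5)) ≃g G) ∨
        Nonempty ((⊤ : SimpleGraph (Fin 5)) ⊕g completeBipartiteGraph (Fin 3) (Fin 3) ≃g G) ∨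
        Nonempty (completeBipartiteGraph (Fin 3) (Fin 3) ⊕g completeBipartiteGraph (Fin 3) (Fin 3) ≃g G)) := by
  have tTRN : StTrn := Pool.Agent.Helper44.AJ.hTRN
  have tJNM : StJnm := Pool.Agent.Helper11.AJ.hJNM tTRN
  have tCON : StCon := Pool.Agent.Helper41.AJ.hCON
  have tPTH : StPth := Pool.Agent.Helper80.AJ.hPTH tCON
  have tDEG : StDeg := Pool.Agent.Helper98.AJ.hDEG tCON
  have tACY : StAcy := Pool.Agent.Helper29.AJ.hACY tCON
  have tPLA : StPla := Pool.Agent.Helper75.AJ.hPLA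
  have tPLB : StPlb := Pool.Agent.Helper22.AJ.hPLB tCON tDEG tACY
  have tK4C : StK4c := Pool.Agent.Helper84.AJ.hK4C tCON
  have tNFO : StNfo := Pool.Agent.Helper97.AJ.hNFO tCON
  have tATT : StAtt := Pool.Agent.Helper44.AJ.hATT tCON tPTH
  have tSPL : StSpl := Pool.Agent.Helper16.AJ.hSPL tCON tATT
  have tTHE : StThe := Pool.Agent.Helper29.AJ.hTHE tSPL
  have tEDG : StEdg := Pool.Agent.Helper90.AJ.hEDG tCON tATT
  have tBBA : StBba := Pool.Agent.Helper40.AJ.hBBA tSPL
  have tBBB : StBbb := Pool.Agent.Helper80.AJ.hBBB tSPL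
  have tMTH : StMth := Pool.Agent.Helper32.AJ.hMTH tK4C tNFO tTHE tEDG tBBA tBBB
  have tFEL : StFel := Pool.Agent.Helper42.AJ.hFEL
  have tFCK : StFck := Pool.Agent.Helper54.AJ.hFCK tFEL
  have tFEX : StFex := Pool.Agent.Helper72.AJ.hFEX tTRN tJNM tFEL tFCK
  have tFNA : StFna := Pool.Agent.Helper51.AJ.hFNA tTRN tJNM
  have tFCO : StFco := Pool.Agent.Helper51.AJ.hFCO tTRN tJNM tFEX
  have tASA : StAsa := Pool.Agent.Helper44.AJ.hASA tTRN tJNM tFNA
  have tASB : StAsb := Pool.Agent.Helper90.AJ.hASB tTRN tJNM tPLA tPLB tMTH tFNA tASA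
  have tASC : StAsc := Pool.Agent.Helper66.AJ.hASC tTRN tJNM tACY tPLB tFNA
  have tASD : StAsd := Pool.Agent.Helper10.AJ.hASD tTRN tFNA tASA tASB tASC
  have tDSA : StDsa := Pool.Agent.Helper6.AJ.hDSA tTRN tJNM
  have tDSB : StDsb := Pool.Agent.Helper38.AJ.hDSB tTRN tJNM
  exact fin tTRN tJNM tFNA tFCO tASD tDSA tDSB V G

end Pool.Agent.Results.MP_d63854_co.JoinExcludedMinors
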