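import Pool.Agent.Helper12.TS.Fin
import Pool.Agent.Helper15.TS.M_EXQ
import Pool.Agent.Helper34.TS.M_QUO
import Pool.Agent.Helper80.TS.M_CMP
import Pool.Agent.Helper76.TS.M_PTN
import Pool.Agent.Helper81.TS.M_RSM
import Pool.Agent.Helper99.TS.M_TWO
import Pool.Agent.Helper63.TS.M_LNK
import Pool.Agent.Helper82.TS.M_YMD
import Pool.Agent.Helper72.TS.M_LNY
import Pool.Agent.Helper11.TS.M_THC
import Pool.Agent.Helper82.TS.M_THR
import Pool.Agent.Helper10.TS.M_STG
import Pool.Agent.Helper23.TS.M_RTP
import Pool.Agent.Helper69.TS.M_RTQ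
import Pool.Agent.Helper13.TS.M_PLC
import Pool.Agent.Helper79.TS.M_K5F
import Pool.Agent.Helper99.TS.M_M3A
import Pool.Agent.Helper7.TS.M_M3S
import Pool.Agent.Helper33.TS.M_M3K
import Pool.Agent.Helper15.TS.M_M3D
import Pool.Agent.Helper50.TS.M_M3E
import Pool.Agent.Helper90.TS.M_TRI
import Pool.Agent.Helper86.TS.M_MN2
import Pool.Agent.Helper92.TS.M_SPM
import Pool.Agent.Helper16.TS.M_VOR
import Pool.Agent.Helper32.TS.M_MDE
import Pool.Agent.Helper36.TS.M_MDQ
import Pool.Agent.Helper10.TS.M_REF
import Pool.Agent.Helper66.TS.M_APM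
import Pool.Agent.Helper86.TS.M_APU
import Pool.Agent.Helper81.TS.M_APB
import Pool.Agent.Helper4.TS.M_APC
import Pool.Agent.Helper10.TS.M_LKB
import Pool.Agent.Helper36.TS.M_ACH
import Pool.Agent.Helper8.TS.M_SMA
import Pool.Agent.Helper89.TS.M_PRC
import Pool.Agent.Helper72.TS.M_AVL
import Pool.Agent.Helper22.TS.M_PAT
import Pool.Agent.Helper34.TS.M_DPT
import Pool.Agent.Helper69.TS.M_BPM
import Pool.Agent.Helper36.TS.M_BPT
import Pool.Agent.Helper47.TS.M_BPR
import Pool.Agent.Helper63.TS.M_BCH
import Pool.Agent.Helper6.TS.M_SMB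
import Pool.Agent.Helper92.TS.M_FIN

/-!
# MP_d63854_co: vertex cuts of size three in excluded minors of the class of apex graphs

All graphs are finite and simple (an excluded minor of the class of apex graphs has no loops and no parallel edges).
`IsMinor`, `Planar`, `ExMinor` are defined in `Pool/Agent/Helper51/AJ/Defs.lean`.  `Cmp G S C`: `C` is (the vertex set of) a component of
`G - S`.  `rst G U` is the graph `G[U]` (with the other vertices as isolated vertices), `cl S` is the complete graph on `S`.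

Proof (paper proof in the docstrings of `Pool/Agent/Helper12/TS/St.lean` and `StB.lean`).  Say that a component `C` is strong at `s` if
`G[C ∪ (S \ {s})]` with the edge between the two elements of `S \ {s}` is not planar.  For every `s` some component is strong at `s` (2-sums).
(2) A component of planar type with at least two vertices could be contracted to one vertex adjacent to all of `S` such that in addition two
vertices of `S` become adjacent; this proper minor is not apex (3-sums).  (1) With three components, contractions of one component into `S`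
show that one component is strong at all vertices of `S` and that all others are of planar type.  (3) If one side `A` is strong at `s` and the other
side `B` at the two other vertices then a spanning model of `K₅` or `K₃,₃` in `G[A ∪ (S \ {s})]` with an edge, refined twice with Menger's
theorem, gives a contraction of `A` to at most seven vertices whose result is not apex.  If `B` is strong at all `s` and `A` at none then a spanning
model in `G[A ∪ S]` with the edges on `S` which are available in all graphs `B - v` gives a contraction of `A` to at most five vertices.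
-/

set_option autoImplicit false

namespace Pool.Agent.Results.MP_d63854_co.ThreeCutsExcludedMinors

open Pool.Agent.Helper51.AJ (IsMinor Planar Apex ExMinor)
open Pool.Agent.Helper12.NK (rst)
open Pool.Agent.Helper12.TS

/-- Let `G` be an excluded minor of the class of apex graphs which is 3-connected, and `S` a set of three vertices with `G - S`
disconnected.  (1) `G - S` has at most four components, and if it has at least three then all but one of them are single vertices.
(2) A component `C` for which `G[C ∪ S]` with a triangle on `S` is planar is a single vertex.  (3) If every vertex of `S` has at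
least two neighbours in every component of `G - S` then there are exactly two components, and one of them has at most seven
vertices. -/
theorem result (V : Type) [Finite V] (G : SimpleGraph V) (hG : ExMinor G)
    (h3 : ∀ X : Set V, X.ncard ≤ 2 → (G.induce Xᶜ).Connected)
    (S : Set V) (hS : S.ncard = 3) (hD : ¬ (G.induce Sᶜ).Connected) :
    {C | Cmp G S C}.ncard ≤ 4 ∧
    (3 ≤ {C | Cmp G S C}.ncard → ∃ C₀, ∀ C, Cmp G S C → C ≠ C₀ → C.ncard = 1) ∧
    (∀ C, Cmp G S C → Planar (rst G (C ∪ S) ⊔ cl S) → C.ncard = 1) ∧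
    ((∀ C, Cmp G S C → ∀ s ∈ S, 2 ≤ {x | x ∈ C ∧ G.Adj s x}.ncard) →
      {C | Cmp G S C}.ncard = 2 ∧ ∃ C, Cmp G S C ∧ C.ncard ≤ 7) := by
  have tEXQ : StEXQ := Pool.Agent.Helper15.TS.hEXQ
  have tQUO : StQUO := Pool.Agent.Helper34.TS.hQUO
  have tCMP : StCMP := Pool.Agent.Helper80.TS.hCMP
  have tPTN : StPTN := Pool.Agent.Helper76.TS.hPTN
  have tRSM : StRSM := Pool.Agent.Helper81.TS.hRSM
  have tTWO : StTWO := Pool.Agent.Helper99.TS.hTWO tPTN tRSM
  have tLNK : StLNK := Pool.Agent.Helper63.TS.hLNK
  have tYMD : StYMD := Pool.Agent.Helper82.TS.hYMD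
  have tLNY : StLNY := Pool.Agent.Helper72.TS.hLNY tPTN tYMD
  have tTHC : StTHC := Pool.Agent.Helper11.TS.hTHC tPTN tCMP
  have tTHR : StTHR := Pool.Agent.Helper82.TS.hTHR tPTN tRSM tYMD tTHC
  have tSTG : StSTG := Pool.Agent.Helper10.TS.hSTG tCMP tTWO
  have tRTP : StRTP := Pool.Agent.Helper23.TS.hRTP tCMP
  have tRTQ : StRTQ := Pool.Agent.Helper69.TS.hRTQ tQUO
  have tPLC : StPLC := Pool.Agent.Helper13.TS.hPLC tQUO tCMP tLNK tTHR tSTG tRTP tRTQ
  have tK5F : StK5F := Pool.Agent.Helper79.TS.hK5F tPTN
  have tM3A : StM3A := Pool.Agent.Helper99.TS.hM3A tQUO tCMP tLNK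
  have tM3S : StM3S := Pool.Agent.Helper7.TS.hM3S tQUO tCMP tLNK
  have tM3K : StM3K := Pool.Agent.Helper33.TS.hM3K
  have tM3D : StM3D := Pool.Agent.Helper15.TS.hM3D tCMP tLNK
  have tM3E : StM3E := Pool.Agent.Helper50.TS.hM3E tCMP tPTN tLNK
  have tTRI : StTRI := Pool.Agent.Helper90.TS.hTRI tSTG tPLC tM3A tM3S tM3K tM3D tM3E tK5F
  have tMN2 : StMN2 := Pool.Agent.Helper86.TS.hMN2
  have tMEN : StMEN := Pool.Agent.Helper86.TS.hMEN
  have tSPM : StSPM := Pool.Agent.Helper92.TS.hSPM tPTN
  have tVOR : StVOR := Pool.Agent.Helper16.TS.hVOR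
  have tMDE : StMDE := Pool.Agent.Helper32.TS.hMDE
  have tMDQ : StMDQ := Pool.Agent.Helper36.TS.hMDQ tPTN tQUO
  have tREF : StREF := Pool.Agent.Helper10.TS.hREF tQUO
  have tAPM : StAPM := Pool.Agent.Helper66.TS.hAPM tPTN tCMP tMEN tSPM tMDE tMDQ
  have tAPU : StAPU := Pool.Agent.Helper86.TS.hAPU tPTN tCMP tMDQ
  have tAPB : StAPB := Pool.Agent.Helper81.TS.hAPB tCMP
  have tAPC : StAPC := Pool.Agent.Helper4.TS.hAPC tQUO tCMP tMEN
  have tLKB : StLKB := Pool.Agent.Helper10.TS.hLKB tCMP
  have tACH : StACH := Pool.Agent.Helper36.TS.hACH tQUO tCMP tLNK tLKB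
  have tSMA : StSMA := Pool.Agent.Helper8.TS.hSMA tQUO tCMP tMDQ tREF tAPM tAPU tAPB tAPC tACH
  have tPRC : StPRC := Pool.Agent.Helper89.TS.hPRC tCMP
  have tAVL : StAVL := Pool.Agent.Helper72.TS.hAVL tCMP tLNY
  have tPAT : StPAT := Pool.Agent.Helper22.TS.hPAT tCMP tTWO tLNK
  have tDPT : StDPT := Pool.Agent.Helper34.TS.hDPT tPRC tAVL tPAT
  have tBPM : StBPM := Pool.Agent.Helper69.TS.hBPM tCMP tSPM tVOR tMDE
  have tBPT : StBPT := Pool.Agent.Helper36.TS.hBPT tPTN tMDQ
  have tBPR : StBPR := Pool.Agent.Helper47.TS.hBPR tPTN tCMP tMDQ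
  have tBCH : StBCH := Pool.Agent.Helper63.TS.hBCH tQUO tCMP tLNK
  have tSMB : StSMB := Pool.Agent.Helper6.TS.hSMB tQUO tMDQ tDPT tBPM tBPT tBPR tBCH
  have tFIN : StFIN := Pool.Agent.Helper92.TS.hFIN tCMP tSTG tPLC tTRI tSMA tSMB
  exact Pool.Agent.Helper12.TS.fin tEXQ tPTN tPLC tTRI tFIN V G hG h3 S hS hD

end Pool.Agent.Results.MP_d63854_co.ThreeCutsExcludedMinors
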